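import Pool.Agent.W481.Main

/-!
The answer to the question is negative: there is a `π₁`-like functor which admits, for no field
automorphism `σ` of `ℂ`, a natural transformation from the topological fundamental groupoid
functor to its twist by `σ` which is the identity on complex points.
-/

namespace Pool.Agent.Results.MP_f4aa65_ag.NotTopological

open Pool.Agent.W481

theorem result : ¬ ∀ π : Pi1Like, ∃ σ : ℂ ≃+* ℂ, Nonempty (TopNat π σ) := by
  intro h
  obtain ⟨σ, ⟨ε⟩⟩ := h piGood
  exact no_topNat σ ε

end Pool.Agent.Results.MP_f4aa65_ag.NotTopological
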